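import Pool.Agent.H835R2.Flat.Uni

/-!
# Willerton's conjecture for the Vassiliev invariant of degree three

The Vassiliev invariant `v₃` (real-valued, of degree at most three, changing its sign under mirror
images, with the value `1` at the right-handed trefoil) exists, and it satisfies
`|v₃ K| ≤ ⌊n (n² - 1) / 24⌋` for every oriented knot `K` which has a diagram with `n` crossings.
-/

set_option autoImplicit false

namespace Pool.Agent.Results.MP_6e410e_gt.Willerton

open Pool.Agent.H835R2.Knot

theorem result :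
    (∃ v : Word → ℝ, IsV3 v) ∧
    ∀ v : Word → ℝ, IsV3 v → ∀ (n : ℕ) (K D : Word), IsKnot K → Isotopic K D → crossings D = n →
      |v K| ≤ ((⌊(n : ℝ) * ((n : ℝ) ^ 2 - 1) / 24⌋ : ℤ) : ℝ) := by
  refine ⟨⟨v3, v3_isV3⟩, ?_⟩
  rintro v hv n K D hK hKD rfl
  rw [hv.invariant K D hK hKD,
    Pool.Agent.H835R2.Flat.v3_unique hv v3_isV3 ((isotopic_knot hKD).1 hK)]
  exact Pool.Agent.H835R2.Flat.v3_floor ((isotopic_knot hKD).1 hK)

end Pool.Agent.Results.MP_6e410e_gt.Willerton
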